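import Mathlib

/-!
# MP_562b47, `ℤ² × F`: from absorbing nodes to real nodes, the two real values depend on the site

Proof. One variable: the determinant of `K + diagonal W` is an affine function of `W x`
(`Matrix.det` with row `x` = `A + t B`: `Matrix.det_updateRow_add`, `det_updateRow_smul`), say `f`. For
`t₁ < t₂` real, `f (i) (t₂ - t₁) = (t₂ - i) f (t₁) + (i - t₁) f (t₂)`, so
`‖f i‖ ≤ (2 + |t₁| + |t₂|)/(t₂ - t₁) * max (‖f t₁‖, ‖f t₂‖)`, i.e. one of the two values has
`‖f t_j‖ ≥ c₀ ‖f i‖`, `c₀ = (t₂ - t₁)/(2 + |t₁| + |t₂|)`. Induction over the finset `S`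
(`Finset.induction_on`): replace the values `i` on `S` one by one.
-/

open Matrix

namespace Pool.Agent.Lib.MP_562b47_mp.SY

variable {n : Type*} [Fintype n] [DecidableEq n]

private theorem det_aff (K : Matrix n n ℂ) (W : n → ℂ) (a : n) :
    ∃ α β : ℂ, ∀ w : ℂ, (K + diagonal (Function.update W a w)).det = α + w * β := by
  refine ⟨((K + diagonal W).updateRow a (K a)).det,
    ((K + diagonal W).updateRow a (Pi.single a 1)).det, fun w => ?_⟩
  have h : K + diagonal (Function.update W a w) =
      (K + diagonal W).updateRow a (K a + w • Pi.single a 1) := by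
    ext i j
    by_cases hi : i = a
    · subst hi
      rw [updateRow_self]
      by_cases hj : j = i
      · subst hj
        simp [Matrix.add_apply]
      · have hj' : i ≠ j := fun h => hj h.symm
        simp [Matrix.add_apply, hj, hj']
    · rw [updateRow_ne hi]
      by_cases hj : i = j
      · subst hj
        simp [Matrix.add_apply, hi]
      · simp [Matrix.add_apply, hj]
  rw [h, det_updateRow_add, det_updateRow_smul]

private theorem one_var (K : Matrix n n ℂ) (W : n → ℂ) (a : n) (ha : W a = Complex.I)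
    (t1 t2 : ℝ) (ht : t1 < t2) :
    ∃ s : ℝ, (s = t1 ∨ s = t2) ∧ (t2 - t1) / (2 + |t1| + |t2|) * ‖(K + diagonal W).det‖ ≤
      ‖(K + diagonal (Function.update W a (s : ℂ))).det‖ := by
  obtain ⟨α, β, hf⟩ := det_aff K W a
  have hI : (K + diagonal W).det = α + Complex.I * β := by
    rw [← hf, ← ha, Function.update_eq_self]
  have hpos : (0 : ℝ) < 2 + |t1| + |t2| := by positivity
  have hd : (0 : ℝ) < t2 - t1 := by linarith
  have key : ((t2 - t1 : ℝ) : ℂ) * (α + Complex.I * β) =
      ((t2 : ℂ) - Complex.I) * (α + t1 * β) + (Complex.I - t1) * (α + t2 * β) := by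
    push_cast
    ring
  have hn : (t2 - t1) * ‖α + Complex.I * β‖ ≤
      (|t2| + 1) * ‖α + t1 * β‖ + (1 + |t1|) * ‖α + t2 * β‖ := by
    have h1 : ‖((t2 - t1 : ℝ) : ℂ) * (α + Complex.I * β)‖ = (t2 - t1) * ‖α + Complex.I * β‖ := by
      rw [norm_mul, Complex.norm_real, Real.norm_eq_abs, abs_of_pos hd]
    rw [← h1, key]
    refine (norm_add_le _ _).trans ?_
    rw [norm_mul, norm_mul]
    have h2 : ‖(t2 : ℂ) - Complex.I‖ ≤ |t2| + 1 := by
      refine (norm_sub_le _ _).trans ?_
      rw [Complex.norm_real, Complex.norm_I, Real.norm_eq_abs]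
    have h3 : ‖Complex.I - (t1 : ℂ)‖ ≤ 1 + |t1| := by
      refine (norm_sub_le _ _).trans ?_
      rw [Complex.norm_real, Complex.norm_I, Real.norm_eq_abs]
    gcongr
  rcases le_total ‖α + t1 * β‖ ‖α + t2 * β‖ with hle | hle
  · refine ⟨t2, Or.inr rfl, ?_⟩
    rw [hI, hf, div_mul_eq_mul_div, div_le_iff₀ hpos]
    have : (|t2| + 1) * ‖α + t1 * β‖ ≤ (|t2| + 1) * ‖α + t2 * β‖ := by gcongr
    nlinarith
  · refine ⟨t1, Or.inl rfl, ?_⟩
    rw [hI, hf, div_mul_eq_mul_div, div_le_iff₀ hpos]
    have : (1 + |t1|) * ‖α + t2 * β‖ ≤ (1 + |t1|) * ‖α + t1 * β‖ := by gcongr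
    nlinarith

theorem choice (K : Matrix n n ℂ) (W : n → ℂ) (S : Finset n) (hS : ∀ x ∈ S, W x = Complex.I)
    (t1 t2 : n → ℝ) (ht : ∀ x, t1 x < t2 x) {c : ℝ} (hc : 0 ≤ c)
    (hcx : ∀ x, c ≤ (t2 x - t1 x) / (2 + |t1 x| + |t2 x|)) :
    ∃ t : n → ℝ, (∀ x, t x = t1 x ∨ t x = t2 x) ∧
      c ^ S.card * ‖(K + diagonal W).det‖ ≤
        ‖(K + diagonal fun x => if x ∈ S then (t x : ℂ) else W x).det‖ := by
  induction S using Finset.induction_on with
  | empty =>
    refine ⟨t1, fun _ => Or.inl rfl, ?_⟩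
    simp
  | insert a S haS ih =>
    obtain ⟨t, ht12, hle⟩ := ih fun x hx => hS x (Finset.mem_insert_of_mem hx)
    obtain ⟨s, hs, hsle⟩ := one_var K (fun x => if x ∈ S then (t x : ℂ) else W x) a
      (by simp only [haS, if_false]; exact hS a (Finset.mem_insert_self a S)) (t1 a) (t2 a) (ht a)
    refine ⟨Function.update t a s, fun x => ?_, ?_⟩
    · by_cases hx : x = a
      · subst hx
        rw [Function.update_self]
        exact hs
      · rw [Function.update_of_ne hx]
        exact ht12 x
    · have hfun : (fun x => if x ∈ insert a S then ((Function.update t a s x : ℝ) : ℂ) else W x) =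
          Function.update (fun x => if x ∈ S then (t x : ℂ) else W x) a (s : ℂ) := by
        funext x
        by_cases hx : x = a
        · subst hx
          simp
        · rw [Function.update_of_ne hx, Function.update_of_ne hx]
          simp [Finset.mem_insert, hx]
      rw [hfun, Finset.card_insert_of_notMem haS, pow_succ]
      calc c ^ S.card * c * ‖(K + diagonal W).det‖
          = c * (c ^ S.card * ‖(K + diagonal W).det‖) := by ring
        _ ≤ c * ‖(K + diagonal fun x => if x ∈ S then (t x : ℂ) else W x).det‖ := by gcongr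
        _ ≤ (t2 a - t1 a) / (2 + |t1 a| + |t2 a|) *
            ‖(K + diagonal fun x => if x ∈ S then (t x : ℂ) else W x).det‖ := by
            gcongr
            exact hcx a
        _ ≤ _ := hsle

end Pool.Agent.Lib.MP_562b47_mp.SY
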