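import Pool.Agent.Lib.MP_562b47_mp.SX.Prof

/-!
MP_562b47, `ℤ² × F`: profiles with the fibre-dependent effective diagonal `τ + tb φ / φ`, `φ` any
function on the fibre without zeros.
-/

open Finset

set_option linter.unusedSectionVars false

namespace Pool.Agent.Lib.MP_562b47_mp.SY

open Pool.Agent.Lib.MP_562b47_mp.SX

variable {d : ℕ} {F : Type} [Fintype F] [DecidableEq F] [Thin F]

/-! ### Existence -/

private theorem tend (q0 q1 : St d F → ℝ) (x : St d F) (h : q0 x ≠ 0) (ε : ℝ) (hε : 0 < ε) :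
    ∃ δ : ℝ, 0 < δ ∧ ∀ t : ℝ, 0 < t → t < δ →
      (1 - t) * q0 x + t * q1 x ≠ 0 ∧
      |Vp (fun x => (1 - t) * q0 x + t * q1 x) x - Vp q0 x| < ε := by
  have h1 : ContinuousAt (fun t : ℝ => (1 - t) * q0 x + t * q1 x) 0 := by fun_prop
  have h2 : ContinuousAt (fun t : ℝ => Vp (fun x => (1 - t) * q0 x + t * q1 x) x) 0 := by
    unfold Vp
    simp only [nbs_lin]
    refine ContinuousAt.div (by fun_prop) (by fun_prop) ?_
    show (1 - 0) * q0 x + 0 * q1 x ≠ 0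
    rw [sub_zero, one_mul, zero_mul, add_zero]
    exact h
  have h3 : ∀ᶠ t in nhds (0 : ℝ), (1 - t) * q0 x + t * q1 x ≠ 0 := by
    refine h1.eventually_ne ?_
    show (1 - 0) * q0 x + 0 * q1 x ≠ 0
    rw [sub_zero, one_mul, zero_mul, add_zero]
    exact h
  have h4 : ∀ᶠ t in nhds (0 : ℝ), |Vp (fun x => (1 - t) * q0 x + t * q1 x) x - Vp q0 x| < ε := by
    have h5 := Metric.tendsto_nhds.1 h2.tendsto ε hε
    have h6 : Vp (fun x => (1 - (0 : ℝ)) * q0 x + 0 * q1 x) x = Vp q0 x := by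
      congr 1
      funext y
      rw [sub_zero, one_mul, zero_mul, add_zero]
    filter_upwards [h5] with t ht
    rw [Real.dist_eq, h6] at ht
    exact ht
  obtain ⟨δ, hδ, hd⟩ := Metric.eventually_nhds_iff.1 (h3.and h4)
  refine ⟨δ, hδ, fun t ht ht' => hd ?_⟩
  rw [Real.dist_eq, sub_zero, abs_of_pos ht]
  exact ht'

private theorem tend_all (q0 q1 : St d F → ℝ) (ε : ℝ) (hε : 0 < ε) (S : Finset (St d F)) :
    (∀ x ∈ S, q0 x ≠ 0) → ∃ δ : ℝ, 0 < δ ∧ ∀ t : ℝ, 0 < t → t < δ → ∀ x ∈ S,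
      (1 - t) * q0 x + t * q1 x ≠ 0 ∧
      |Vp (fun x => (1 - t) * q0 x + t * q1 x) x - Vp q0 x| < ε := by
  classical
  refine Finset.induction_on S ?_ ?_
  · intro _
    exact ⟨1, one_pos, fun t _ _ x hx => absurd hx (Finset.notMem_empty x)⟩
  · intro a S _ ih h
    obtain ⟨δ1, h1, h2⟩ := ih fun x hx => h x (Finset.mem_insert_of_mem hx)
    obtain ⟨δ2, h3, h4⟩ := tend q0 q1 a (h a (Finset.mem_insert_self a S)) ε hε
    refine ⟨min δ1 δ2, lt_min h1 h3, fun t ht ht' x hx => ?_⟩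
    rcases Finset.mem_insert.1 hx with hx | hx
    · rw [hx]
      exact h4 t ht (ht'.trans_le (min_le_right _ _))
    · exact h2 t ht (ht'.trans_le (min_le_left _ _)) x hx

/-- one profile for the long directions, all centres `o` at once -/
theorem exists_prof (hd : 1 ≤ d) {φ : F → ℝ} (hφ : ∀ f, φ f ≠ 0) (τ : ℝ)
    (hv : -(2 * (d : ℝ)) < τ) (hv' : τ < 2 * (d : ℝ)) (ε : ℝ) (hε : 0 < ε) :
    ∃ (b : ℤ) (z : ℝ), 3 ≤ b ∧ 0 < z ∧ z < 1 ∧ ∀ o : F, ∃ (P : Prof d F b z) (C : ℝ),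
      (∀ x : St d F, x.1 ∈ GD.cl d b → |Vp P.p x - (τ + tb φ x.2 / φ x.2)| < ε) ∧ 0 < C ∧ CellEst b o P.p C := by
  have hd0 : (0 : ℝ) < d := by exact_mod_cast hd
  have hv1 : -4 < 2 * τ / d := by
    rw [lt_div_iff₀ hd0]
    linarith
  have hv2 : 2 * τ / d < 4 := by
    rw [div_lt_iff₀ hd0]
    linarith
  obtain ⟨b, k, hb, h0, hs, h1, hk'⟩ :=
    BG.dens (2 * τ / d) hv1 hv2 (2 * (ε / 3) / d) (by positivity)
  have hk : |2 * d * Real.cos k - τ| < ε / 3 := by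
    have e1 : 2 * (d : ℝ) * Real.cos k - τ =
        (d / 2) * (4 * Real.cos k - 2 * τ / d) := by
      field_simp
      ring
    rw [e1, abs_mul, abs_of_pos (by positivity : (0 : ℝ) < d / 2)]
    calc (d : ℝ) / 2 * |4 * Real.cos k - 2 * τ / d| < d / 2 * (2 * (ε / 3) / d) :=
          mul_lt_mul_of_pos_left hk' (by positivity)
      _ = ε / 3 := by field_simp
  obtain ⟨z0, hz0, hz1, hz⟩ := GD.p0_Vp (d := d) hb h0 hs (ε / 3) (by linarith)
  obtain ⟨z, hzz, hzz1⟩ : ∃ z : ℝ, z0 < z ∧ z < 1 := exists_between hz1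
  have hzp : 0 < z := hz0.trans hzz
  refine ⟨b, z, hb, hzp, hzz1, fun o => ?_⟩
  obtain ⟨P0, hP0⟩ := GD.p0_prof (d := d) hb hs h1 hzp
  obtain ⟨P1, hP1⟩ := GD.p1_prof (d := d) hb hzp
  set p0 : St d F → ℝ := fun x => φ x.2 * P0.p x.1 with hp0
  have hq1 : (fun x : St d F => P1.p x.1) = q1 d F b z := by
    funext x
    rw [hP1]
    rfl
  have hp0V : ∀ x : St d F, x.1 ∈ GD.cl d b → Vp p0 x = GD.Vp (GD.p0 b k z) x.1 + tb φ x.2 / φ x.2 := by
    intro x hx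
    have a1 : p0 x ≠ 0 := mul_ne_zero (hφ _) (P0.ne _ hx)
    have a2 : P0.p x.1 ≠ 0 := P0.ne _ hx
    have a3 : nbs p0 x = φ x.2 * GD.nbs P0.p x.1 + tb φ x.2 * P0.p x.1 := by
      unfold nbs
      congr 1
      · unfold GD.nbs
        rw [Finset.mul_sum]
        refine Finset.sum_congr rfl fun i _ => ?_
        simp only [hp0]
        ring
      · unfold tb
        simp only [hp0]
        have a5 : ∑ g, (if Thin.B x.2 g then φ g * P0.p x.1 else 0) =
            (∑ g, (if Thin.B x.2 g then φ g else 0)) * P0.p x.1 := by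
          rw [Finset.sum_mul]
          refine Finset.sum_congr rfl fun g _ => ?_
          split_ifs <;> simp
        rw [a5]
    unfold Vp GD.Vp
    rw [a3, ← hP0]
    have a6 := hφ x.2
    simp only [hp0] at a1 ⊢
    field_simp
  obtain ⟨δ, hδ, hdl⟩ := tend_all p0 (fun x => P1.p x.1) (ε / 3) (by linarith) (cl d F b)
    (fun x hx => mul_ne_zero (hφ _) (P0.ne _ (mem_cl.1 hx)))
  obtain ⟨t, ht, ht', hdet⟩ := seg b o p0 (fun x => P1.p x.1)
    (by rw [hq1]; exact q1_minor hb hzp o) δ hδ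
  have hP : ∃ P : Prof d F b z, P.p = fun x => (1 - t) * p0 x + t * P1.p x.1 := by
    refine ⟨⟨fun f => ⟨fun y => (1 - t) * (φ f * P0.p y) + t * P1.p y,
      fun y hy => (hdl t ht ht' (y, f) (mem_cl.2 hy)).1, fun y hy => ?_, fun i y => ?_⟩⟩, rfl⟩
    · show (1 - t) * (φ f * P0.p y) + t * P1.p y = 0
      rw [P0.out y hy, P1.out y hy]
      ring
    · show (1 - t) * (φ f * P0.p (Function.update y i (b - 1))) +
          t * P1.p (Function.update y i (b - 1)) =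
        z * ((1 - t) * (φ f * P0.p (Function.update y i 1)) + t * P1.p (Function.update y i 1))
      rw [P0.side i y, P1.side i y]
      ring
  obtain ⟨P, hPp⟩ := hP
  obtain ⟨C, hC, hCE⟩ := cell_est P o hb (by rw [hPp]; exact hdet)
  refine ⟨P, C, fun x hx => ?_, hC, hCE⟩
  have a1 := (hdl t ht ht' x (mem_cl.2 hx)).2
  have a2 := hz z hzz hzz1 x.1 hx
  rw [← hPp] at a1
  rw [hp0V x hx] at a1
  have a3 : Vp P.p x - (τ + tb φ x.2 / φ x.2) =
      (Vp P.p x - (GD.Vp (GD.p0 b k z) x.1 + tb φ x.2 / φ x.2)) +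
      (GD.Vp (GD.p0 b k z) x.1 - 2 * d * Real.cos k) + (2 * d * Real.cos k - τ) := by ring
  rw [a3]
  have a4 := abs_add_le ((Vp P.p x - (GD.Vp (GD.p0 b k z) x.1 + tb φ x.2 / φ x.2)) +
    (GD.Vp (GD.p0 b k z) x.1 - 2 * d * Real.cos k)) (2 * d * Real.cos k - τ)
  have a5 := abs_add_le (Vp P.p x - (GD.Vp (GD.p0 b k z) x.1 + tb φ x.2 / φ x.2))
    (GD.Vp (GD.p0 b k z) x.1 - 2 * d * Real.cos k)
  linarith

end Pool.Agent.Lib.MP_562b47_mp.SY
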