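import Pool.Agent.Lib.MP_562b47_mp.SX.APri
import Pool.Agent.Lib.MP_562b47_mp.BG.LinA
import Pool.Agent.Lib.MP_562b47_mp.SY.Choice

/-!
MP_562b47, `ℤ² × F`: real node values with an invertible block; the two values depend on the fibre
coordinate.
-/

open Finset

set_option linter.unusedSectionVars false

namespace Pool.Agent.Lib.MP_562b47_mp.SY

open Pool.Agent.Lib.MP_562b47_mp.SX

variable {d : ℕ} {F : Type} [Fintype F] [DecidableEq F] [Thin F] {b : ℤ} {z : ℝ}

private theorem rn_KM_add {R : Type*} [CommRing R] (m : ℤ) (o : F) (W : St d F → R) :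
    KM m o W = KM m o (fun _ => 0) + Matrix.diagonal fun x : inn d m o => W x := by
  ext x y
  unfold KM
  rw [Matrix.add_apply, Matrix.of_apply, Matrix.of_apply, Matrix.diagonal_apply]
  split_ifs <;> ring

private theorem rn_det {b : ℤ} {z : ℝ} (hz : 0 < z) (P : Prof d F b z) (o : F) {C1 : ℝ}
    (hC1 : 1 ≤ C1) (N : ℕ)
    (hap : ∀ (u : St d F → ℂ) (K : ℝ), 0 ≤ K →
      (∀ x, x ∉ inn d (b * N) o → u x = 0) →
      (∀ x ∈ inn d (b * N) o, ‖Wi b P.p x * u x - nbs u x‖ ≤ K) →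
      ∀ x, ‖u x‖ ≤ C1 * (N : ℝ) ^ (d + 2) * (z⁻¹) ^ (2 * d * N) * K) :
    1 ≤ ‖(KM (b * N) o (Wi b P.p)).det‖ * ((Fintype.card (inn d (b * N) o)).factorial *
      (C1 * (N : ℝ) ^ (d + 2) * (z⁻¹) ^ (2 * d * N)) ^ Fintype.card (inn d (b * N) o)) := by
  refine BG.det_ge _ _ (by positivity) ?_
  intro v K hK h x
  classical
  set u : St d F → ℂ := fun y => if hy : y ∈ inn d (b * N) o then v ⟨y, hy⟩ else 0 with hu
  have hu0 : ∀ y, y ∉ inn d (b * N) o → u y = 0 := fun y hy => dif_neg hy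
  have hu1 : ∀ y : inn d (b * N) o, u y = v y := fun y => by
    simp only [hu]
    rw [dif_pos y.2]
  have hu2 : (fun y : inn d (b * N) o => u y) = v := funext hu1
  have h1 := hap u K hK hu0 (fun y hy => by
    have h2 := KM_mulVec (b * N) o (Wi b P.p) u hu0 ⟨y, hy⟩
    rw [hu2] at h2
    have h3 := h ⟨y, hy⟩
    rw [h2] at h3
    exact h3) x
  rw [hu1] at h1
  exact h1

private theorem rn_exp {D A c C1 z : ℝ} {N n : ℕ} (hD : 0 ≤ D) (hA : 1 ≤ A) (hc : 0 < c)
    (hC1 : 1 ≤ C1) (hz : 0 < z) (hN : 1 ≤ N) (hn : (n : ℝ) ≤ D * (N : ℝ) ^ d) {δ : ℝ} (hδ : 0 < δ)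
    (hd1 : c ^ n ≤ δ * (n.factorial * (C1 * (N : ℝ) ^ (d + 2) * (z⁻¹) ^ (2 * d * N)) ^ n)) :
    n.factorial * A ^ n / δ ≤
      Real.exp (D * (2 * (D + d) + A / c + C1 + (d + 2) + 2 * d * z⁻¹) * (N : ℝ) ^ (d + 1)) := by
  have hN1 : (1 : ℝ) ≤ N := by exact_mod_cast hN
  have hN0 : (0 : ℝ) < N := by linarith
  have hz1 : 0 < z⁻¹ := inv_pos.mpr hz
  have hdr : (0 : ℝ) ≤ d := Nat.cast_nonneg d
  set M : ℝ := C1 * (N : ℝ) ^ (d + 2) * (z⁻¹) ^ (2 * d * N) with hM
  have hM0 : 0 < M := by positivity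
  have key : ∀ t : ℝ, 0 ≤ t → t ≤ Real.exp (t * N) := by
    intro t ht
    have h1 := Real.add_one_le_exp (t * N)
    nlinarith
  have hNe : (N : ℝ) ≤ Real.exp N := by
    have h1 := Real.add_one_le_exp (N : ℝ)
    linarith
  -- the factorial
  have hf : (n.factorial : ℝ) ≤ Real.exp ((D + d) * N) ^ n := by
    have h1 : (n.factorial : ℝ) ≤ (n : ℝ) ^ n := by exact_mod_cast Nat.factorial_le_pow n
    refine h1.trans (pow_le_pow_left₀ (Nat.cast_nonneg _) (hn.trans ?_) n)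
    calc D * (N : ℝ) ^ d ≤ Real.exp (D * N) * Real.exp N ^ d :=
          mul_le_mul (key D hD) (pow_le_pow_left₀ hN0.le hNe d) (by positivity)
            (Real.exp_pos _).le
      _ = Real.exp ((D + d) * N) := by
          rw [← Real.exp_nat_mul, ← Real.exp_add]
          congr 1
          ring
  -- the base
  have hb : A * M / c ≤ Real.exp ((A / c + C1 + (d + 2) + 2 * d * z⁻¹) * N) := by
    have e1 : A * M / c = (A / c) * (C1 * ((N : ℝ) ^ (d + 2) * (z⁻¹) ^ (2 * d * N))) := by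
      rw [hM]
      ring
    have h2 : A / c ≤ Real.exp (A / c * N) := key _ (by positivity)
    have h3 : C1 ≤ Real.exp (C1 * N) := key _ (by linarith)
    have h4 : (N : ℝ) ^ (d + 2) ≤ Real.exp N ^ (d + 2) := pow_le_pow_left₀ hN0.le hNe _
    have h5 : (z⁻¹) ^ (2 * d * N) ≤ Real.exp (z⁻¹) ^ (2 * d * N) := by
      refine pow_le_pow_left₀ hz1.le ?_ _
      have := Real.add_one_le_exp (z⁻¹)
      linarith
    rw [e1]
    calc (A / c) * (C1 * ((N : ℝ) ^ (d + 2) * (z⁻¹) ^ (2 * d * N))) ≤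
        Real.exp (A / c * N) * (Real.exp (C1 * N) * (Real.exp N ^ (d + 2) *
          Real.exp (z⁻¹) ^ (2 * d * N))) := by gcongr
      _ = Real.exp ((A / c + C1 + (d + 2) + 2 * d * z⁻¹) * N) := by
          rw [← Real.exp_nat_mul, ← Real.exp_nat_mul, ← Real.exp_add, ← Real.exp_add,
            ← Real.exp_add]
          congr 1
          push_cast
          ring
  have h1 : n.factorial * A ^ n / δ ≤ (n.factorial : ℝ) ^ 2 * (A * M / c) ^ n := by
    rw [div_le_iff₀ hδ]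
    have e2 : (n.factorial : ℝ) ^ 2 * (A * M / c) ^ n * δ =
        n.factorial * A ^ n * (δ * (n.factorial * M ^ n)) / c ^ n := by
      rw [div_pow, mul_pow]
      ring
    rw [e2, le_div_iff₀ (by positivity)]
    exact mul_le_mul_of_nonneg_left hd1 (by positivity)
  refine h1.trans ?_
  calc (n.factorial : ℝ) ^ 2 * (A * M / c) ^ n ≤
      (Real.exp ((D + d) * N) ^ n) ^ 2 *
        Real.exp ((A / c + C1 + (d + 2) + 2 * d * z⁻¹) * N) ^ n := by
        gcongr
    _ = Real.exp (n * ((2 * (D + d) + A / c + C1 + (d + 2) + 2 * d * z⁻¹) * N)) := by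
        rw [← Real.exp_nat_mul, ← Real.exp_nat_mul, ← Real.exp_nat_mul, ← Real.exp_add]
        congr 1
        push_cast
        ring
    _ ≤ Real.exp (D * (2 * (D + d) + A / c + C1 + (d + 2) + 2 * d * z⁻¹) *
          (N : ℝ) ^ (d + 1)) := by
        apply Real.exp_le_exp.mpr
        have h6 : 0 ≤ (2 * (D + d) + A / c + C1 + (d + 2) + 2 * d * z⁻¹) * N := by positivity
        calc n * ((2 * (D + d) + A / c + C1 + (d + 2) + 2 * d * z⁻¹) * N) ≤
            (D * (N : ℝ) ^ d) * ((2 * (D + d) + A / c + C1 + (d + 2) + 2 * d * z⁻¹) * N) :=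
              mul_le_mul_of_nonneg_right hn h6
          _ = _ := by rw [pow_succ]; ring

theorem real_nodes (hd : 1 ≤ d) (hb : 3 ≤ b) (hz : 0 < z) (hz1 : z < 1) (P : Prof d F b z)
    (o : F) {CM : ℝ} (hC : 0 < CM) (hP : CellEst b o P.p CM) (t1 t2 : F → ℝ) (ht : ∀ f, t1 f < t2 f) :
    ∃ C : ℝ, 1 ≤ C ∧ ∀ N : ℕ, 1 ≤ N → ∃ Vs : St d F → ℝ,
      (∀ x, ¬ node b x → Vs x = Ve b P.p x) ∧ (∀ x, node b x → Vs x = t1 x.2 ∨ Vs x = t2 x.2) ∧
      (KM (b * N) o Vs).det ≠ 0 ∧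
      ∀ x y, |(KM (b * N) o Vs)⁻¹ x y| ≤ Real.exp (C * (N : ℝ) ^ (d + 1)) := by
  classical
  obtain ⟨C1, hC1, hap⟩ := apri hd hb hz hz1 P o hC hP
  have hb3 : (3 : ℝ) ≤ b := by exact_mod_cast hb
  have hF : (univ : Finset F).Nonempty := ⟨o, mem_univ o⟩
  obtain ⟨f0, -, hf0⟩ := Finset.exists_min_image univ
    (fun f => (t2 f - t1 f) / (2 + |t1 f| + |t2 f|)) hF
  obtain ⟨c, hc⟩ : ∃ c : ℝ, c = (t2 f0 - t1 f0) / (2 + |t1 f0| + |t2 f0|) := ⟨_, rfl⟩
  have hden : 0 < 2 + |t1 f0| + |t2 f0| := by positivity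
  have hc0 : 0 < c := by
    rw [hc]
    exact div_pos (by linarith [ht f0]) hden
  have hc1 : c ≤ 1 := by
    rw [hc, div_le_one hden]
    have := le_abs_self (t2 f0)
    have := neg_abs_le (t1 f0)
    linarith
  have hcf : ∀ f, c ≤ (t2 f - t1 f) / (2 + |t1 f| + |t2 f|) := fun f => by
    rw [hc]
    exact hf0 f (mem_univ f)
  set A : ℝ := 1 + (∑ f, (|t1 f| + |t2 f|) + ∑ x ∈ cl d F b, |Vp P.p x|) with hA
  have hsum : 0 ≤ ∑ x ∈ cl d F b, |Vp P.p x| := Finset.sum_nonneg fun _ _ => abs_nonneg _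
  have hts : 0 ≤ ∑ f, (|t1 f| + |t2 f|) := Finset.sum_nonneg fun _ _ => by positivity
  have htf : ∀ f, |t1 f| + |t2 f| ≤ ∑ f, (|t1 f| + |t2 f|) := fun f =>
    Finset.single_le_sum (f := fun f => |t1 f| + |t2 f|) (fun _ _ => by positivity) (mem_univ f)
  have hA1 : 1 ≤ A := by linarith
  have hdr : (0 : ℝ) ≤ d := Nat.cast_nonneg d
  set D : ℝ := Fintype.card F * (2 * (b : ℝ)) ^ d with hD
  have hD1 : 1 ≤ D := by
    have h1 : (1 : ℝ) ≤ Fintype.card F := by
      exact_mod_cast Fintype.card_pos_iff.2 ⟨o⟩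
    have h2 : (1 : ℝ) ≤ (2 * (b : ℝ)) ^ d := one_le_pow₀ (by linarith)
    rw [hD]
    nlinarith
  have hD0 : 0 ≤ D := by linarith
  have hz2 : 0 < z⁻¹ := inv_pos.mpr hz
  refine ⟨D * (2 * (D + d) + A / c + C1 + (d + 2) + 2 * d * z⁻¹), ?_, ?_⟩
  · have h1 : 0 ≤ A / c := by positivity
    have h2 : 0 ≤ 2 * (d : ℝ) * z⁻¹ := by positivity
    have h3 : 1 ≤ 2 * (D + d) + A / c + C1 + (d + 2) + 2 * d * z⁻¹ := by linarith
    nlinarith
  intro N hN
  have hN1 : (1 : ℤ) ≤ N := by exact_mod_cast hN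
  set m : ℤ := b * N with hm
  have hm1 : 1 ≤ m := by nlinarith
  set n : ℕ := Fintype.card (inn d m o) with hn
  have hnD : (n : ℝ) ≤ D * (N : ℝ) ^ d := by
    have h1 := card_inn_le (d := d) (m := m) (by omega) o
    have h2 : (m : ℝ) = b * N := by rw [hm]; push_cast; ring
    rw [h2] at h1
    calc (n : ℝ) ≤ Fintype.card F * (2 * ((b : ℝ) * N)) ^ d := by
          rw [hn, Fintype.card_coe]; exact h1
      _ = D * (N : ℝ) ^ d := by rw [hD, mul_assoc, ← mul_pow]; congr 2; ring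
  have hdet := rn_det hz P o hC1 N (hap N hN)
  rw [← hm, ← hn] at hdet
  set S : Finset (inn d m o) := Finset.univ.filter fun x => node b (x : St d F) with hS
  obtain ⟨t, ht1, ht2⟩ := choice (KM m o fun _ => (0 : ℂ)) (fun x : inn d m o => Wi b P.p x) S
    (fun x hx => by
      rw [hS, Finset.mem_filter] at hx
      unfold Wi
      rw [if_pos hx.2]) (fun x => t1 (x : St d F).2) (fun x => t2 (x : St d F).2)
      (fun x => ht _) hc0.le (fun x => hcf _)
  rw [← rn_KM_add m o (Wi b P.p)] at ht2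
  set Vs : St d F → ℝ := fun x => if node b x then
    (if h : x ∈ inn d m o then t ⟨x, h⟩ else t1 x.2) else Ve b P.p x with hVs
  have hnode : ∀ x, node b x → Vs x = t1 x.2 ∨ Vs x = t2 x.2 := by
    intro x hx
    simp only [hVs]
    rw [if_pos hx]
    split_ifs
    · exact ht1 _
    · exact Or.inl rfl
  have hnn : ∀ x, ¬ node b x → Vs x = Ve b P.p x := by
    intro x hx
    simp only [hVs]
    rw [if_neg hx]
  have hKM : (KM m o fun _ => (0 : ℂ)) + Matrix.diagonal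
      (fun x => if x ∈ S then (t x : ℂ) else Wi b P.p x) =
      (KM m o Vs).map (fun r : ℝ => (r : ℂ)) := by
    ext x y
    unfold KM
    rw [Matrix.add_apply, Matrix.of_apply, Matrix.diagonal_apply, Matrix.map_apply,
      Matrix.of_apply]
    have hval : (if x ∈ S then (t x : ℂ) else Wi b P.p x) = ((Vs x : ℝ) : ℂ) := by
      by_cases hx : node b (x : St d F)
      · have hxS : x ∈ S := by rw [hS, Finset.mem_filter]; exact ⟨Finset.mem_univ _, hx⟩
        rw [if_pos hxS]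
        simp only [hVs]
        rw [if_pos hx, dif_pos x.2]
      · have hxS : x ∉ S := by
          rw [hS, Finset.mem_filter]
          exact fun h => hx h.2
        rw [if_neg hxS, hnn _ hx]
        unfold Wi
        rw [if_neg hx]
    rw [hval]
    split_ifs <;> push_cast <;> ring
  have hdetc : ‖((KM m o fun _ => (0 : ℂ)) + Matrix.diagonal
      (fun x => if x ∈ S then (t x : ℂ) else Wi b P.p x)).det‖ = |(KM m o Vs).det| := by
    rw [hKM]
    have h1 : ((KM m o Vs).map (fun r : ℝ => (r : ℂ))).det = (((KM m o Vs).det : ℝ) : ℂ) := by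
      have h2 := RingHom.map_det Complex.ofRealHom (KM m o Vs)
      rw [RingHom.mapMatrix_apply] at h2
      exact h2.symm
    rw [h1, Complex.norm_real, Real.norm_eq_abs]
  rw [hdetc] at ht2
  set M : ℝ := C1 * (N : ℝ) ^ (d + 2) * (z⁻¹) ^ (2 * d * N) with hM
  have hN1' : (1 : ℝ) ≤ N := by exact_mod_cast hN
  have hM0 : 0 < M := by positivity
  have hfM : 0 < (n.factorial : ℝ) * M ^ n := by
    have : (0 : ℝ) < n.factorial := by exact_mod_cast Nat.factorial_pos n
    positivity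
  have hSn : S.card ≤ n := by
    rw [hn]
    exact Finset.card_le_univ S
  have hd1 : c ^ n ≤ |(KM m o Vs).det| * (n.factorial * M ^ n) := by
    calc c ^ n ≤ c ^ S.card := pow_le_pow_of_le_one hc0.le hc1 hSn
      _ ≤ c ^ S.card * (‖(KM m o (Wi b P.p)).det‖ * (n.factorial * M ^ n)) :=
          le_mul_of_one_le_right (by positivity) hdet
      _ = (c ^ S.card * ‖(KM m o (Wi b P.p)).det‖) * (n.factorial * M ^ n) := by ring
      _ ≤ |(KM m o Vs).det| * (n.factorial * M ^ n) :=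
          mul_le_mul_of_nonneg_right ht2 hfM.le
  have hdpos : 0 < |(KM m o Vs).det| := by
    by_contra hneg
    rw [not_lt] at hneg
    have h0 : |(KM m o Vs).det| = 0 := le_antisymm hneg (abs_nonneg _)
    rw [h0, zero_mul] at hd1
    have : 0 < c ^ n := pow_pos hc0 n
    linarith
  have hd0 : (KM m o Vs).det ≠ 0 := abs_pos.mp hdpos
  refine ⟨Vs, hnn, hnode, hd0, ?_⟩
  have hVA : ∀ x, |Vs x| + 1 ≤ A := by
    intro x
    by_cases hx : node b x
    · have h1 := abs_nonneg (t1 x.2)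
      have h2 := abs_nonneg (t2 x.2)
      have h3 := htf x.2
      rcases hnode x hx with h | h <;> rw [h, hA] <;> linarith
    · rw [hnn x hx, hA]
      have h1 : |Ve b P.p x| ≤ ∑ x ∈ cl d F b, |Vp P.p x| := by
        unfold Ve
        exact Finset.single_le_sum (f := fun x => |Vp P.p x|) (fun _ _ => abs_nonneg _)
          (mem_cl.2 (rr_mem hb hx))
      linarith
  intro x y
  have hent : ∀ x y, |KM m o Vs x y| ≤ A := by
    intro x y
    unfold KM
    rw [Matrix.of_apply]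
    refine (abs_sub _ _).trans ?_
    have h1 := hVA x
    have h2 := abs_nonneg (Vs x)
    split_ifs <;> simp only [abs_zero, abs_one] <;> linarith
  refine (BG.inv_le (KM m o Vs) A hA1 hent hd0 x y).trans ?_
  exact rn_exp hD0 hA1 hc0 hC1 hz hN hnD hdpos hd1

end Pool.Agent.Lib.MP_562b47_mp.SY
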