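import Pool.Agent.Lib.MP_562b47_mp.SX.Defs

/-!
MP_562b47, `ℤ² × F`: approximate modes of the fibre without zeros.

Proof.  `Z = {f | φ₀ f = 0}`, `S = {f | φ₀ f ≠ 0}` (not empty).
For `t : ℝ` let `K t : Matrix F F ℝ`,
`K t f g = if φ₀ f = 0 then (if f = g then κ f + t - lam else 0) - (if Thin.B f g then 1 else 0)
           else (if f = g then 1 else 0)`, and `b f = if φ₀ f = 0 then 0 else 1`.

(1) For large `T` (`κ f + T - lam ≥ card F + 1` for all `f`): `det (K T) ≠ 0` (strictly diagonally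
dominant rows, `det_ne_zero_of_sum_row_lt_diag`, or directly: if `K T *ᵥ v = 0` look at `max |v|`), and
the solution `ψ = (K T)⁻¹ *ᵥ b` is positive everywhere: let `m = ψ f0` be its minimum.  If `f0 ∈ S`,
`m = 1`.  If `f0 ∈ Z`: `(κ f0 + T - lam) m = tb ψ f0 ≥ deg f0 * m` (`deg f0 = tb 1 f0 ≤ card F`), hence
`(κ f0 + T - lam - deg f0) m ≥ 0`, so `m ≥ 0`.  So `ψ ≥ 0`.  If `ψ f = 0` then `f ∈ Z` and
`tb ψ f = 0`, so `ψ g = 0` for all neighbours `g` of `f`: the set `{ψ = 0}` is closed under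
neighbours, if it is not empty it is everything (`Thin.conn`), but `ψ = 1` on `S`.
(2) `D t = det (K t)` and `N f t = (adjugate (K t) *ᵥ b) f` are polynomials in `t` (as in `SX.seg`:
matrix over `ℝ[X]`, `RingHom.map_det`, `RingHom.map_adjugate`), and nonzero ones because
`D T ≠ 0`, `N f T = D T * ψ f ≠ 0`.  So there is `t ∈ (0, ε)` with `D t ≠ 0` and `N f t ≠ 0` for all
`f`.  Put `ψ f = N f t / D t`: then `K t *ᵥ ψ = b`, i.e. `ψ = 1` on `S`,
`(κ f + t - lam) ψ f = tb ψ f` on `Z`, and `ψ` has no zeros.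
(3) `φ = φ₀ + δ ψ`, `δ > 0` small.  On `Z`: `φ f = δ ψ f ≠ 0`, `tb φ₀ f = 0` (equation of `φ₀`), so
`tb φ f = δ tb ψ f = (κ f + t - lam) φ f` and `κ f - tb φ f / φ f - lam = - t`.
On `S`: `φ f → φ₀ f ≠ 0` and `κ f - tb φ f / φ f - lam → κ f - tb φ₀ f / φ₀ f - lam = 0` for `δ → 0`
(continuity; finitely many `f`).
-/

open Finset

set_option linter.unusedSectionVars false

namespace Pool.Agent.Lib.MP_562b47_mp.SY

open Pool.Agent.Lib.MP_562b47_mp.SX

variable {F : Type} [Fintype F] [DecidableEq F] [Thin F]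

private lemma tb_lin (a : ℝ) (u v : F → ℝ) (f : F) :
    tb (fun g => u g + a * v g) f = tb u f + a * tb v f := by
  unfold tb
  rw [Finset.mul_sum, ← Finset.sum_add_distrib]
  refine Finset.sum_congr rfl fun g _ => ?_
  split_ifs <;> ring

/-- the matrix, over a commutative ring -/
private noncomputable def modeM {R : Type*} [CommRing R] (φ₀ : F → ℝ) (c : F → R) : Matrix F F R :=
  fun f g => open Classical in
    if φ₀ f = 0 then (if f = g then c f else 0) - (if Thin.B f g then 1 else 0)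
    else (if f = g then 1 else 0)

private noncomputable def modeb {R : Type*} [CommRing R] (φ₀ : F → ℝ) : F → R :=
  fun f => open Classical in if φ₀ f = 0 then 0 else 1

private lemma modeM_mulVec (φ₀ : F → ℝ) (c : F → ℝ) (ψ : F → ℝ) (f : F) :
    (modeM φ₀ c).mulVec ψ f = open Classical in
      if φ₀ f = 0 then c f * ψ f - tb ψ f else ψ f := by
  classical
  unfold Matrix.mulVec dotProduct modeM tb
  by_cases h : φ₀ f = 0
  · simp only [if_pos h, sub_mul, Finset.sum_sub_distrib]
    congr 1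
    · simp
    · refine Finset.sum_congr rfl fun g _ => ?_
      split_ifs <;> simp
  · simp only [if_neg h]
    simp

private lemma modeM_map (φ₀ : F → ℝ) (c : F → Polynomial ℝ) (t : ℝ) :
    (Polynomial.evalRingHom t).mapMatrix (modeM φ₀ c) = modeM φ₀ (fun f => (c f).eval t) := by
  classical
  ext f g
  rw [RingHom.mapMatrix_apply, Matrix.map_apply, Polynomial.coe_evalRingHom]
  unfold modeM
  split_ifs <;> simp

private lemma tb_le_max (u : F → ℝ) (f : F) {m : ℝ} (hm : ∀ g, m ≤ u g) :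
    (∑ g, if Thin.B f g then (1 : ℝ) else 0) * m ≤ tb u f := by
  unfold tb
  rw [Finset.sum_mul]
  refine Finset.sum_le_sum fun g _ => ?_
  split_ifs
  · rw [one_mul]; exact hm g
  · rw [zero_mul]

private lemma deg_le (f : F) :
    (∑ g, if Thin.B f g then (1 : ℝ) else 0) ≤ Fintype.card F := by
  calc (∑ g, if Thin.B f g then (1 : ℝ) else 0) ≤ ∑ _g : F, (1 : ℝ) := by
        refine Finset.sum_le_sum fun g _ => ?_
        split_ifs <;> norm_num
    _ = Fintype.card F := by simp

/-- large diagonal: the determinant does not vanish -/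
private lemma mode_det (φ₀ : F → ℝ) (c : F → ℝ) (hc : ∀ f, (Fintype.card F : ℝ) + 1 ≤ c f) :
    (modeM φ₀ c).det ≠ 0 := by
  classical
  apply det_ne_zero_of_sum_row_lt_diag
  intro f
  by_cases h : φ₀ f = 0
  · have hM : ∀ g, modeM φ₀ c f g =
        (if f = g then c f else 0) - (if Thin.B f g then (1 : ℝ) else 0) := by
      intro g
      unfold modeM
      rw [if_pos h]
    have h1 : ‖modeM φ₀ c f f‖ = c f := by
      rw [hM, if_pos rfl, if_neg (Thin.irr f), sub_zero, Real.norm_eq_abs, abs_of_nonneg]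
      have := hc f
      have h2 : (0 : ℝ) ≤ Fintype.card F := Nat.cast_nonneg _
      linarith
    rw [h1]
    simp only [hM]
    calc ∑ g ∈ univ.erase f, ‖((if f = g then c f else 0) - (if Thin.B f g then (1 : ℝ) else 0))‖
        ≤ ∑ g ∈ univ.erase f, (1 : ℝ) := by
          refine Finset.sum_le_sum fun g hg => ?_
          rw [if_neg (fun e => (Finset.ne_of_mem_erase hg) e.symm), zero_sub, norm_neg]
          split_ifs <;> simp
      _ ≤ Fintype.card F := by
          rw [Finset.sum_const, nsmul_eq_mul, mul_one]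
          exact_mod_cast Finset.card_le_univ _
      _ < c f := by
          have := hc f
          linarith
  · have hM : ∀ g, modeM φ₀ c f g = (if f = g then (1 : ℝ) else 0) := by
      intro g
      unfold modeM
      rw [if_neg h]
    have h1 : ∑ g ∈ univ.erase f, ‖modeM φ₀ c f g‖ = 0 := by
      refine Finset.sum_eq_zero fun g hg => ?_
      rw [hM, if_neg (fun e => (Finset.ne_of_mem_erase hg) e.symm), norm_zero]
    rw [h1, hM, if_pos rfl]
    norm_num

/-- large diagonal: the solution has no zeros -/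
private lemma mode_pos (φ₀ : F → ℝ) (h0 : φ₀ ≠ 0) (c : F → ℝ)
    (hc : ∀ f, (Fintype.card F : ℝ) + 1 ≤ c f) (ψ : F → ℝ)
    (hψ : (modeM φ₀ c).mulVec ψ = modeb φ₀) (f : F) : ψ f ≠ 0 := by
  classical
  have e1 : ∀ g, φ₀ g ≠ 0 → ψ g = 1 := by
    intro g hg
    have := congrFun hψ g
    rw [modeM_mulVec, if_neg hg] at this
    rw [this]
    unfold modeb
    rw [if_neg hg]
  have e2 : ∀ g, φ₀ g = 0 → c g * ψ g = tb ψ g := by
    intro g hg
    have := congrFun hψ g
    rw [modeM_mulVec, if_pos hg] at this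
    unfold modeb at this
    rw [if_pos hg] at this
    linarith
  have : Nonempty F := ⟨f⟩
  obtain ⟨f0, hf0⟩ := Finite.exists_min ψ
  have hm : 0 ≤ ψ f0 := by
    by_cases h : φ₀ f0 = 0
    · have h1 := tb_le_max ψ f0 hf0
      rw [← e2 f0 h] at h1
      have h2 := deg_le f0
      have h3 := hc f0
      by_contra hcon
      push Not at hcon
      nlinarith
    · rw [e1 f0 h]
      norm_num
  have hnn : ∀ g, 0 ≤ ψ g := fun g => hm.trans (hf0 g)
  intro hf
  have hall := Thin.conn {g : F | ψ g = 0} ⟨f, hf⟩ (by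
    intro g hg k hk
    have hg' : ψ g = 0 := hg
    have hZ : φ₀ g = 0 := by
      by_contra h
      have := e1 g h
      rw [hg'] at this
      norm_num at this
    have h1 := e2 g hZ
    rw [hg', mul_zero] at h1
    unfold tb at h1
    have h2 := (Finset.sum_eq_zero_iff_of_nonneg (fun x _ => by
      split_ifs
      · exact hnn x
      · exact le_rfl)).mp h1.symm k (mem_univ k)
    rw [if_pos hk] at h2
    exact h2)
  apply h0
  funext g
  by_contra hg
  have h1 := e1 g hg
  have h2 : ψ g = 0 := hall g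
  rw [h2] at h1
  norm_num at h1

/-- a solution without zeros for some small `t > 0` -/
private lemma mode_small (κ : F → ℝ) (lam : ℝ) (φ₀ : F → ℝ) (h0 : φ₀ ≠ 0) {ε : ℝ} (hε : 0 < ε) :
    ∃ t : ℝ, 0 < t ∧ t < ε ∧ ∃ ψ : F → ℝ, (∀ f, ψ f ≠ 0) ∧
      (modeM φ₀ (fun f => κ f + t - lam)).mulVec ψ = modeb φ₀ := by
  classical
  set c : F → Polynomial ℝ := fun f => Polynomial.C (κ f - lam) + Polynomial.X with hcdef
  have hce : ∀ t : ℝ, (fun f => (c f).eval t) = fun f => κ f + t - lam := by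
    intro t
    funext f
    simp only [hcdef, Polynomial.eval_add, Polynomial.eval_C, Polynomial.eval_X]
    ring
  set KX : Matrix F F (Polynomial ℝ) := modeM φ₀ c with hKX
  set bX : F → Polynomial ℝ := modeb φ₀ with hbX
  have hbe : ∀ t : ℝ, (fun f => (bX f).eval t) = modeb (R := ℝ) φ₀ := by
    intro t
    funext f
    simp only [hbX]
    unfold modeb
    split_ifs <;> simp
  have hdet : ∀ t : ℝ, (KX.det).eval t = (modeM φ₀ (fun f => κ f + t - lam)).det := by
    intro t
    have h := RingHom.map_det (Polynomial.evalRingHom t) KX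
    rw [modeM_map, hce, Polynomial.coe_evalRingHom] at h
    exact h
  have hadj : ∀ (t : ℝ) (f : F), ((KX.adjugate).mulVec bX f).eval t =
      ((modeM φ₀ (fun f => κ f + t - lam)).adjugate).mulVec (modeb φ₀) f := by
    intro t f
    have h := RingHom.map_adjugate (Polynomial.evalRingHom t) KX
    rw [modeM_map, hce] at h
    rw [← h]
    unfold Matrix.mulVec dotProduct
    rw [Polynomial.eval_finsetSum]
    refine Finset.sum_congr rfl fun g _ => ?_
    rw [Polynomial.eval_mul]
    have h5 : (bX g).eval t = modeb (R := ℝ) φ₀ g := congrFun (hbe t) g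
    rw [h5]
    rfl
  -- a large `T`
  obtain ⟨T, hT⟩ : ∃ T : ℝ, ∀ f, (Fintype.card F : ℝ) + 1 ≤ κ f + T - lam := by
    refine ⟨Fintype.card F + 1 + lam + ∑ g, |κ g|, fun f => ?_⟩
    have h1 : |κ f| ≤ ∑ g, |κ g| :=
      Finset.single_le_sum (f := fun g => |κ g|) (fun g _ => abs_nonneg _) (mem_univ f)
    have h2 := neg_abs_le (κ f)
    linarith
  have hDT : (modeM φ₀ (fun f => κ f + T - lam)).det ≠ 0 := mode_det φ₀ _ hT
  have hNT : ∀ f, ((modeM φ₀ (fun f => κ f + T - lam)).adjugate).mulVec (modeb φ₀) f ≠ 0 := by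
    set A := modeM φ₀ (fun f => κ f + T - lam) with hA
    set ψ : F → ℝ := A⁻¹.mulVec (modeb φ₀) with hψd
    have h1 : A.mulVec ψ = modeb φ₀ := by
      rw [hψd, Matrix.mulVec_mulVec, Matrix.mul_nonsing_inv _ (isUnit_iff_ne_zero.mpr hDT),
        Matrix.one_mulVec]
    intro f
    have h2 : A.adjugate.mulVec (modeb φ₀) f = A.det * ψ f := by
      rw [← h1, Matrix.mulVec_mulVec, Matrix.adjugate_mul, Matrix.smul_mulVec,
        Matrix.one_mulVec]
      rfl
    rw [h2]
    exact mul_ne_zero hDT (mode_pos φ₀ h0 _ hT ψ h1 f)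
  set P : Polynomial ℝ := KX.det * ∏ f, (KX.adjugate).mulVec bX f with hP
  have hP0 : P ≠ 0 := by
    intro h
    have h1 : P.eval T = 0 := by rw [h, Polynomial.eval_zero]
    rw [hP, Polynomial.eval_mul, Polynomial.eval_prod] at h1
    rcases mul_eq_zero.mp h1 with h2 | h2
    · rw [hdet] at h2
      exact hDT h2
    · obtain ⟨f, -, hf⟩ := Finset.prod_eq_zero_iff.mp h2
      rw [hadj] at hf
      exact hNT f hf
  obtain ⟨t, ht, htP⟩ : ∃ t ∈ Set.Ioo (0 : ℝ) ε, P.eval t ≠ 0 := by
    by_contra hcon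
    push Not at hcon
    apply Set.Ioo_infinite hε
    refine (P.roots.toFinset.finite_toSet).subset ?_
    intro t ht
    simp only [Finset.mem_coe, Multiset.mem_toFinset]
    rw [Polynomial.mem_roots hP0]
    exact hcon t ht
  rw [hP, Polynomial.eval_mul, Polynomial.eval_prod] at htP
  have hD : (modeM φ₀ (fun f => κ f + t - lam)).det ≠ 0 := by
    rw [← hdet]
    exact left_ne_zero_of_mul htP
  have hN : ∀ f, ((modeM φ₀ (fun f => κ f + t - lam)).adjugate).mulVec (modeb φ₀) f ≠ 0 := by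
    intro f
    rw [← hadj]
    exact (Finset.prod_ne_zero_iff.mp (right_ne_zero_of_mul htP)) f (mem_univ f)
  set A := modeM φ₀ (fun f => κ f + t - lam) with hA
  refine ⟨t, ht.1, ht.2, (A.det)⁻¹ • (A.adjugate.mulVec (modeb φ₀)), ?_, ?_⟩
  · intro f
    rw [Pi.smul_apply, smul_eq_mul]
    exact mul_ne_zero (inv_ne_zero hD) (hN f)
  · rw [Matrix.mulVec_smul, Matrix.mulVec_mulVec, Matrix.mul_adjugate, Matrix.smul_mulVec,
      Matrix.one_mulVec, smul_smul, inv_mul_cancel₀ hD, one_smul]

/-- for every eigenvalue `lam` of `κ - (adjacency)` there is an approximate eigenvector without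
zeros -/
theorem exists_amode (κ : F → ℝ) {lam : ℝ} {φ₀ : F → ℝ} (h0 : φ₀ ≠ 0)
    (hφ : ∀ f, κ f * φ₀ f - tb φ₀ f = lam * φ₀ f) {ε : ℝ} (hε : 0 < ε) :
    ∃ φ : F → ℝ, (∀ f, φ f ≠ 0) ∧ ∀ f, |κ f - tb φ f / φ f - lam| < ε := by
  classical
  obtain ⟨t, ht0, htε, ψ, hψ0, hψ⟩ := mode_small κ lam φ₀ h0 hε
  have ev : ∀ f, ∀ᶠ δ : ℝ in nhdsWithin 0 (Set.Ioi 0), φ₀ f + δ * ψ f ≠ 0 ∧
      |κ f - tb (fun g => φ₀ g + δ * ψ g) f / (φ₀ f + δ * ψ f) - lam| < ε := by
    intro f
    by_cases h : φ₀ f = 0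
    · have h1 := congrFun hψ f
      rw [modeM_mulVec, if_pos h] at h1
      unfold modeb at h1
      rw [if_pos h] at h1
      have h2 : tb φ₀ f = 0 := by
        have := hφ f
        rw [h] at this
        linarith
      filter_upwards [self_mem_nhdsWithin] with δ hδ
      have hδ0 : (0 : ℝ) < δ := hδ
      have h3 : φ₀ f + δ * ψ f ≠ 0 := by
        rw [h, zero_add]
        exact mul_ne_zero hδ0.ne' (hψ0 f)
      refine ⟨h3, ?_⟩
      have h4 : tb (fun g => φ₀ g + δ * ψ g) f / (φ₀ f + δ * ψ f) = κ f + t - lam := by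
        rw [tb_lin, h2, h, zero_add, zero_add, div_eq_iff (mul_ne_zero hδ0.ne' (hψ0 f))]
        have : tb ψ f = (κ f + t - lam) * ψ f := by linarith
        rw [this]
        ring
      rw [h4]
      have h5 : κ f - (κ f + t - lam) - lam = - t := by ring
      rw [h5, abs_neg, abs_of_pos ht0]
      exact htε
    · have c1 : Filter.Tendsto (fun δ : ℝ => φ₀ f + δ * ψ f) (nhdsWithin 0 (Set.Ioi 0))
          (nhds (φ₀ f)) := by
        have hc : Continuous (fun δ : ℝ => φ₀ f + δ * ψ f) := by fun_prop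
        have := (hc.tendsto 0).mono_left (nhdsWithin_le_nhds (s := Set.Ioi 0))
        simpa using this
      have c2 : Filter.Tendsto (fun δ : ℝ => tb (fun g => φ₀ g + δ * ψ g) f)
          (nhdsWithin 0 (Set.Ioi 0)) (nhds (tb φ₀ f)) := by
        have e : (fun δ : ℝ => tb (fun g => φ₀ g + δ * ψ g) f) =
            fun δ : ℝ => tb φ₀ f + δ * tb ψ f := by
          funext δ
          exact tb_lin δ φ₀ ψ f
        rw [e]
        have hc : Continuous (fun δ : ℝ => tb φ₀ f + δ * tb ψ f) := by fun_prop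
        have := (hc.tendsto 0).mono_left (nhdsWithin_le_nhds (s := Set.Ioi 0))
        simpa using this
      have c3 : Filter.Tendsto (fun δ : ℝ => |κ f - tb (fun g => φ₀ g + δ * ψ g) f /
          (φ₀ f + δ * ψ f) - lam|) (nhdsWithin 0 (Set.Ioi 0))
          (nhds |κ f - tb φ₀ f / φ₀ f - lam|) :=
        ((tendsto_const_nhds.sub (c2.div c1 h)).sub tendsto_const_nhds).abs
      have e0 : |κ f - tb φ₀ f / φ₀ f - lam| = 0 := by
        rw [abs_eq_zero]
        have := hφ f
        field_simp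
        linarith
      rw [e0] at c3
      exact (c1.eventually_ne h).and (c3.eventually_lt_const hε)
  obtain ⟨δ, hδ⟩ := (Filter.eventually_all.mpr ev).exists
  exact ⟨fun g => φ₀ g + δ * ψ g, fun f => (hδ f).1, fun f => (hδ f).2⟩

end Pool.Agent.Lib.MP_562b47_mp.SY
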